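import Pool.Agent.H5.OR.Gen.Defs

/-!
# Isomorphism problem for one-relator groups: `P` is mapped to a conjugate of `P'`
-/

set_option autoImplicit false

open scoped Classical

namespace ORh.F3f

open ORg

theorem exists_nb {G : Type} [Group G] (S : GTree G) (r b v : S.V) (h : S.T.Adj r b) :
    ∃ u, S.T.Adj v u := by
  by_cases hv : v = r
  · exact ⟨b, by rw [hv]; exact h⟩
  · obtain ⟨p⟩ := S.tree.1.preconnected v r
    cases p with
    | nil => exact absurd rfl hv
    | cons h' _ => exact ⟨_, h'⟩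

theorem half (NE : T_NE) {P Y P' G' : Type} [Group P] [Group P'] [Group G']
    (iF' : FreeGroup Y →* G') (iP' : P' →* G') (S' : GTree G') (r' b' : S'.V)
    (hF : Function.Injective iF') (am : IsAm S' iP'.range iF'.range r' b') (ac : S'.AC)
    (kk : KG P) (ψ : P →* G') (hψ : Function.Injective ψ) :
    ∃ g : G', ∀ x : P, g * ψ x * g⁻¹ ∈ iP'.range := by
  have hAC : (S'.comap ψ).AC := by
    intro x hx u v hu hv h1 h2
    refine ac (ψ x) ?_ u v hu hv h1 h2
    intro h
    apply hx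
    apply hψ
    rw [h, map_one]
  have hblue : ∀ (K : Subgroup P) (v : (S'.comap ψ).V), KK K → ¬ (S'.comap ψ).red v →
      ¬ ∀ g ∈ K, g • v = v := by
    intro K v hK hred hfix
    obtain ⟨v, rfl⟩ : ∃ v' : S'.V, v' = v := ⟨v, rfl⟩
    have hv2 : ∀ x ∈ K, ψ x • v = v := fun x hx => hfix x hx
    obtain ⟨u, hu⟩ := exists_nb S' r' b' v am.adj
    have hu' : S'.red u := by
      have h1 := S'.red_adj u v hu.symm
      exact h1.2 hred
    obtain ⟨g, -, hg⟩ := am.edge u v hu' hu.symm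
    have h1 : ∀ x : K, g⁻¹ * ψ x * g ∈ iF'.range := by
      intro x
      rw [← am.stB, mul_smul, mul_smul, ← hg, hv2 _ x.2, hg, inv_smul_smul]
    let ρ : K →* G' :=
      { toFun := fun x => g⁻¹ * ψ x * g
        map_one' := by simp
        map_mul' := fun x y => by rw [Subgroup.coe_mul, map_mul]; group }
    let e : FreeGroup Y ≃* iF'.range := MonoidHom.ofInjective hF
    let f : K →* FreeGroup Y := e.symm.toMonoidHom.comp (ρ.codRestrict iF'.range h1)
    refine NE K Y f hK ?_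
    intro x y hxy
    have h2 : (ρ.codRestrict iF'.range h1) x = (ρ.codRestrict iF'.range h1) y :=
      e.symm.injective hxy
    have h3 : g⁻¹ * ψ x * g = g⁻¹ * ψ y * g := congrArg Subtype.val h2
    have h4 : ψ x = ψ y := mul_left_cancel (mul_right_cancel h3)
    exact Subtype.ext (hψ h4)
  obtain ⟨v, hvred, hv⟩ := kk (S'.comap ψ) hAC hblue
  have hv' : ∀ x : P, ψ x • (show S'.V from v) = (show S'.V from v) := fun x => hv x
  obtain ⟨v, rfl⟩ : ∃ v' : S'.V, v' = v := ⟨v, rfl⟩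
  have hv2 : ∀ x : P, ψ x • v = v := hv'
  obtain ⟨u, hu⟩ := exists_nb S' r' b' v am.adj
  obtain ⟨g, hg, -⟩ := am.edge v u hvred hu
  refine ⟨g⁻¹, fun x => ?_⟩
  rw [← am.stA, inv_inv, mul_smul, mul_smul, ← hg, hv2, hg, inv_smul_smul]

theorem pf_F3 (NE : T_NE) : ORh.T_F3 := by
  intro X1 X2 P G _ _ w a iF iP S r b X1' X2' P' G' _ _ w' a' iF' iP' S' r' b' h h' φ
  obtain ⟨g, hg⟩ := half NE iF' iP' S' r' b' h'.injF h'.am h'.ac h.kk
    (φ.toMonoidHom.comp iP) (φ.injective.comp h.injP)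
  obtain ⟨k₀, hk₀⟩ := half NE iF iP S r b h.injF h.am h.ac h'.kk
    (φ.symm.toMonoidHom.comp iP') (φ.symm.injective.comp h'.injP)
  have hg' : ∀ x : P, g * φ (iP x) * g⁻¹ ∈ iP'.range := fun x => hg x
  have hk' : ∀ y : P', k₀ * φ.symm (iP' y) * k₀⁻¹ ∈ iP.range := fun y => hk₀ y
  -- the conjugation by `k`
  obtain ⟨k, hk⟩ : ∃ k, k = k₀ * φ.symm g := ⟨_, rfl⟩
  have hconj : ∀ x : G, g * φ x * g⁻¹ ∈ iP'.range → k * x * k⁻¹ ∈ iP.range := by
    rintro x ⟨y, hy⟩
    have h1 := hk' y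
    rw [hy] at h1
    have h2 : k₀ * φ.symm (g * φ x * g⁻¹) * k₀⁻¹ = k * x * k⁻¹ := by
      rw [map_mul, map_mul, MulEquiv.symm_apply_apply, map_inv, hk, mul_inv_rev]
      group
    rw [h2] at h1
    exact h1
  have hkP : k ∈ iP.range := by
    obtain ⟨c, hcdef⟩ : ∃ c, c = a := ⟨a, rfl⟩
    have hc1 : iP c ≠ 1 := by
      intro h1
      rw [hcdef, ← h.eq] at h1
      have h2 : fl w = 1 := h.injF (by rw [h1, map_one])
      have h3 : w = 1 := by
        apply FreeGroup.map_injective Sum.inl_injective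
        rw [map_one]
        exact h2
      have h4 := h.root 1 0 (by rw [h3, zpow_zero])
      rcases h4 with h4 | h4
      · exact absurd h4 (by norm_num)
      · exact absurd h4 (by norm_num)
    have h1 : k * iP c * k⁻¹ ∈ iP.range := hconj _ (hg' c)
    have h2 : (k * iP c * k⁻¹) • r = r := (h.am.stA _).2 h1
    have h3 : iP c • (k⁻¹ • r) = k⁻¹ • r := by
      rw [eq_inv_smul_iff, ← mul_smul, ← mul_smul]
      exact h2
    have h4 : iP c • r = r := (h.am.stA _).2 ⟨c, rfl⟩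
    have h5 : k⁻¹ • r = r := h.ac (iP c) hc1 _ _ ((S.red_smul _ _).2 h.am.red) h.am.red h3 h4
    have h6 : k⁻¹ ∈ iP.range := (h.am.stA _).1 h5
    have h7 := iP.range.inv_mem h6
    rwa [inv_inv] at h7
  refine ⟨g, fun x => ⟨?_, ?_⟩⟩
  · rintro ⟨y, rfl⟩
    exact hg' y
  · intro hx
    have h1 := hconj x hx
    have h2 : x = k⁻¹ * (k * x * k⁻¹) * k := by group
    rw [h2]
    exact iP.range.mul_mem (iP.range.mul_mem (iP.range.inv_mem hkP) h1) hkP

end ORh.F3f
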