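import Pool.Agent.H5.OR.Gen.Defs

/-!
# MP_e1fd52_al, board org_modules, row F4: the free factor is mapped into the stabiliser of a blue
vertex
-/

set_option autoImplicit false

open scoped Classical

namespace ORh.F4f

open ORg

theorem fl_inj {X1 X2 : Type} :
    Function.Injective (fl : FreeGroup X1 →* FreeGroup (X1 ⊕ X2)) :=
  FreeGroup.map_injective Sum.inl_injective

/-- the free group on at least two generators is not commutative -/
theorem not_comm {X : Type} {i j : X} (hij : i ≠ j) :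
    FreeGroup.of i * FreeGroup.of j ≠ FreeGroup.of j * FreeGroup.of i := by
  intro h
  have h1 := congrArg (FreeGroup.lift (fun x : X => if x = i then Equiv.swap (0 : Fin 3) 1
    else Equiv.swap (1 : Fin 3) 2)) h
  rw [map_mul, map_mul, FreeGroup.lift_apply_of, FreeGroup.lift_apply_of, if_pos rfl,
    if_neg (Ne.symm hij)] at h1
  revert h1
  decide

/-- a red vertex of the tree of an amalgamated product is a translate of the base vertex -/
theorem red_orbit (TA : T_TA) {G : Type} [Group G] {S : GTree G} {A B : Subgroup G} {r b : S.V}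
    (h : IsAm S A B r b) (v : S.V) (hv : S.red v) : ∃ g : G, v = g • r := by
  obtain ⟨_, _, _, _, _, _, _, _, t9, _⟩ := TA G S
  have hrb : r ≠ b := h.adj.ne
  obtain ⟨u, hu⟩ : ∃ u, v ≠ u := by
    by_cases h1 : v = r
    · exact ⟨b, by rw [h1]; exact hrb⟩
    · exact ⟨r, h1⟩
  obtain ⟨c, hc, _⟩ := t9 v u hu
  obtain ⟨g, hg, _⟩ := h.edge v c hv hc
  exact ⟨g, hg⟩

/-- the key lemma -/
theorem key (TA : T_TA) (TN : T_TN) (FF : T_FF) {X1 X2 P G : Type} [Group P] [Group G]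
    {w : FreeGroup X1} {a : P} {iF : FreeGroup (X1 ⊕ X2) →* G} {iP : P →* G} {S : GTree G}
    {r b : S.V} {X1' X2' P' G' : Type} [Group P'] [Group G'] {w' : FreeGroup X1'} {a' : P'}
    {iF' : FreeGroup (X1' ⊕ X2') →* G'} {iP' : P' →* G'} {S' : GTree G'} {r' b' : S'.V}
    (h : ORh.Su w a iF iP S r b) (h' : ORh.Su w' a' iF' iP' S' r' b') (φ : G ≃* G')
    (hP : ∀ x : G, x ∈ iP.range ↔ φ x ∈ iP'.range) (v : S'.V) (hv : S'.red v)
    (y0 : FreeGroup X1) (hy0 : y0 ≠ 1) (hf0 : φ (iF (fl y0)) • v = v) :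
    ∃ f : FreeGroup X1, ∀ y : FreeGroup X1, φ (iF (fl y)) • v = v →
      f⁻¹ * y * f ∈ Subgroup.zpowers w := by
  obtain ⟨_, _, _, _, t5, _, _, _, t9, _⟩ := TA G S
  obtain ⟨_, _, n3⟩ := TN G S
  obtain ⟨g', rfl⟩ := red_orbit TA h'.am v hv
  have hiff : ∀ y : FreeGroup X1, φ (iF (fl y)) • g' • r' = g' • r' →
      iF (fl y) • φ.symm g' • r = φ.symm g' • r := by
    intro y hy
    have h1 : (g'⁻¹ * φ (iF (fl y)) * g') • r' = r' := by
      rw [mul_smul, mul_smul, hy, inv_smul_smul]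
    rw [h'.am.stA] at h1
    have h2 : (φ.symm g')⁻¹ * iF (fl y) * φ.symm g' ∈ iP.range := by
      rw [hP]
      simpa using h1
    rw [← h.am.stA, mul_smul, mul_smul, inv_smul_eq_iff] at h2
    exact h2
  have hb : ∀ z : FreeGroup (X1 ⊕ X2), iF z • b = b := fun z => (h.am.stB _).2 ⟨z, rfl⟩
  have hur : S.red (φ.symm g' • r) := (S.red_smul _ _).2 h.am.red
  have hbr : ¬ S.red b := (S.red_adj _ _ h.am.adj).1 h.am.red
  have hne : b ≠ φ.symm g' • r := by
    intro h1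
    rw [h1] at hbr
    exact hbr hur
  obtain ⟨c, hc, hc2⟩ := t9 b (φ.symm g' • r) hne
  have hx0 : iF (fl y0) ≠ 1 := by
    intro h1
    apply hy0
    apply fl_inj (X2 := X2)
    rw [map_one]
    apply h.injF
    rw [h1, map_one]
  have hfix := n3 (iF (fl y0)) (φ.symm g' • r) b c b (hiff y0 hf0) (hb _) hc.symm hc2
    (t5 b c hc).1
  have hcr : S.red c := (S.red_adj _ _ hc.symm).2 hbr
  have hcu : c = φ.symm g' • r := h.ac _ hx0 c _ hcr hur hfix.1 (hiff y0 hf0)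
  have hadj : S.T.Adj (φ.symm g' • r) b := by
    rw [← hcu]
    exact hc.symm
  obtain ⟨k, hk1, hk2⟩ := h.am.edge _ _ hur hadj
  obtain ⟨z, rfl⟩ : k ∈ iF.range := (h.am.stB k).1 hk2.symm
  have hpow : ∀ y : FreeGroup X1, φ (iF (fl y)) • g' • r' = g' • r' →
      ∃ m : ℤ, z⁻¹ * fl y * z = fl w ^ m := by
    intro y hy
    have h1 := hiff y hy
    rw [hk1] at h1
    have h2 : (iF (z⁻¹ * fl y * z)) • r = r := by
      rw [map_mul, map_mul, map_inv, mul_smul, mul_smul, h1, inv_smul_smul]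
    obtain ⟨p, hp⟩ := (h.am.stA _).1 h2
    obtain ⟨m, hm, _⟩ := h.inter _ _ hp.symm
    exact ⟨m, hm⟩
  obtain ⟨m0, hm0⟩ := hpow y0 hf0
  have hz : ∃ f : FreeGroup X1, z = fl f := by
    refine FF X1 X2 z (w ^ m0) y0 ?_ ?_
    · intro h1
      rw [← map_zpow, h1, map_one] at hm0
      apply hy0
      apply fl_inj (X2 := X2)
      rw [map_one]
      have h2 : fl y0 = z * (z⁻¹ * fl y0 * z) * z⁻¹ := by group
      rw [h2, hm0]
      group
    · rw [map_zpow, ← hm0]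
      group
  obtain ⟨f, rfl⟩ := hz
  refine ⟨f, fun y hy => ?_⟩
  obtain ⟨m, hm⟩ := hpow y hy
  rw [Subgroup.mem_zpowers_iff]
  refine ⟨m, ?_⟩
  apply fl_inj (X2 := X2)
  rw [map_zpow, ← hm, map_mul, map_mul, map_inv]

theorem pf_F4 (TA : T_TA) (TN : T_TN) (LS : T_LS) (FF : T_FF) : ORh.T_F4 := by
  intro X1 X2 P G _ _ w a iF iP S r b X1' X2' P' G' _ _ w' a' iF' iP' S' r' b' h h' φ hP
  have hfin := h.fin
  have hnt := h.nt
  have hK := fun v hv y0 hy0 hf0 => key TA TN FF h h' φ hP v hv y0 hy0 hf0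
  let ψ : FreeGroup X1 →* G' := φ.toMonoidHom.comp (iF.comp fl)
  have hψ : ∀ y, ψ y = φ (iF (fl y)) := fun y => rfl
  have hred : ∀ v : S'.V, S'.red v → ∃ x : FreeGroup X1, ∀ g : FreeGroup X1,
      ψ g • v = v → x⁻¹ * g * x ∈ Subgroup.zpowers w := by
    intro v hv
    by_cases hex : ∃ y0 : FreeGroup X1, y0 ≠ 1 ∧ φ (iF (fl y0)) • v = v
    · obtain ⟨y0, hy0, hf0⟩ := hex
      exact hK v hv y0 hy0 hf0
    · refine ⟨1, fun g hg => ?_⟩
      have h1 : g = 1 := by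
        by_contra hg1
        exact hex ⟨g, hg1, hg⟩
      rw [h1]
      simp
  have hLS := LS X1 w (S'.comap ψ) h.root h.wh ?_ ?_
  · obtain ⟨v, hv⟩ := hLS
    refine ⟨v, ?_, fun y => hv y⟩
    intro hvr
    obtain ⟨i, j, hij⟩ := hnt
    have h1 : FreeGroup.of i ≠ 1 := FreeGroup.of_ne_one i
    obtain ⟨f, hf⟩ := hK v hvr (FreeGroup.of i) h1 (hv _)
    have hcomm : ∀ x y : FreeGroup X1, x * y = y * x := by
      intro x y
      have hx := hf x (hv _)
      have hy := hf y (hv _)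
      rw [Subgroup.mem_zpowers_iff] at hx hy
      obtain ⟨m, hm⟩ := hx
      obtain ⟨n, hn⟩ := hy
      have h2 : x = f * w ^ m * f⁻¹ := by rw [hm]; group
      have h3 : y = f * w ^ n * f⁻¹ := by rw [hn]; group
      rw [h2, h3]
      have h4 : w ^ m * w ^ n = w ^ n * w ^ m := by rw [← zpow_add, ← zpow_add, add_comm]
      calc f * w ^ m * f⁻¹ * (f * w ^ n * f⁻¹) = f * (w ^ m * w ^ n) * f⁻¹ := by group
        _ = f * (w ^ n * w ^ m) * f⁻¹ := by rw [h4]
        _ = f * w ^ n * f⁻¹ * (f * w ^ m * f⁻¹) := by group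
    exact not_comm hij (hcomm _ _)
  · refine ⟨r', ?_⟩
    change ψ w • r' = r'
    rw [h'.am.stA, hψ, h.eq, ← hP]
    exact ⟨a, rfl⟩
  · intro u v huv
    have hadj : S'.T.Adj u v := huv
    by_cases hu : S'.red u
    · obtain ⟨x, hx⟩ := hred u hu
      exact ⟨x, fun g hg _ => hx g hg⟩
    · have hv : S'.red v := (S'.red_adj _ _ hadj.symm).2 hu
      obtain ⟨x, hx⟩ := hred v hv
      exact ⟨x, fun g _ hg => hx g hg⟩

end ORh.F4f
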