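import Pool.Agent.H5.OR.Defs2

/-!
# Isomorphism problem for one-relator groups (MP_e1fd52_al): the main theorem for the class `KG`
-/

set_option autoImplicit false

open scoped Classical

namespace ORh

open ORg (GTree IsAm IsPO Inf Root Prim Wh fl KG)

/-- `G` is the amalgamated product of the free group on `X1 ⊕ X2` and of `P`, along `w = a`, where
`w` lies in the free factor on `X1`, and `S` is its tree -/
structure Su {X1 X2 P G : Type} [Group P] [Group G] (w : FreeGroup X1) (a : P)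
    (iF : FreeGroup (X1 ⊕ X2) →* G) (iP : P →* G) (S : GTree G) (r b : S.V) : Prop where
  injF : Function.Injective iF
  injP : Function.Injective iP
  am : IsAm S iP.range iF.range r b
  eq : iF (fl w) = iP a
  inter : ∀ x y, iF x = iP y → ∃ k : ℤ, x = fl w ^ k ∧ y = a ^ k
  ac : S.AC
  root : Root w
  wh : Wh w
  fin : Finite X1
  nt : Nontrivial X1
  kk : KG P

/-- SU: the situation of the main theorem -/
def T_SU : Prop := ∀ (X1 X2 P G : Type) [Group P] [Group G] (w : FreeGroup X1) (a : P)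
  (iF : FreeGroup (X1 ⊕ X2) →* G) (iP : P →* G),
  IsPO (zpowersHom (FreeGroup (X1 ⊕ X2)) (fl w)) (zpowersHom P a) iF iP →
  Root w → Wh w → Finite X1 → Nontrivial X1 → KG P → Inf a →
  ∃ (S : GTree G) (r b : S.V), Su w a iF iP S r b

/-- F3: `P` is mapped to a conjugate of `P'` -/
def T_F3 : Prop := ∀ (X1 X2 P G : Type) [Group P] [Group G] (w : FreeGroup X1) (a : P)
  (iF : FreeGroup (X1 ⊕ X2) →* G) (iP : P →* G) (S : GTree G) (r b : S.V)
  (X1' X2' P' G' : Type) [Group P'] [Group G'] (w' : FreeGroup X1') (a' : P')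
  (iF' : FreeGroup (X1' ⊕ X2') →* G') (iP' : P' →* G') (S' : GTree G') (r' b' : S'.V),
  Su w a iF iP S r b → Su w' a' iF' iP' S' r' b' → ∀ φ : G ≃* G',
  ∃ g : G', ∀ x : G, x ∈ iP.range ↔ g * φ x * g⁻¹ ∈ iP'.range

/-- F4: the free factor is mapped into the stabiliser of a blue vertex -/
def T_F4 : Prop := ∀ (X1 X2 P G : Type) [Group P] [Group G] (w : FreeGroup X1) (a : P)
  (iF : FreeGroup (X1 ⊕ X2) →* G) (iP : P →* G) (S : GTree G) (r b : S.V)
  (X1' X2' P' G' : Type) [Group P'] [Group G'] (w' : FreeGroup X1') (a' : P')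
  (iF' : FreeGroup (X1' ⊕ X2') →* G') (iP' : P' →* G') (S' : GTree G') (r' b' : S'.V),
  Su w a iF iP S r b → Su w' a' iF' iP' S' r' b' → ∀ φ : G ≃* G',
  (∀ x : G, x ∈ iP.range ↔ φ x ∈ iP'.range) →
  ∃ v : S'.V, ¬ S'.red v ∧ ∀ y : FreeGroup X1, φ (iF (fl y)) • v = v

/-- F5: after a conjugation by an element of `P'` the free factor is mapped into `F'` -/
def T_F5 : Prop := ∀ (X1 X2 P G : Type) [Group P] [Group G] (w : FreeGroup X1) (a : P)
  (iF : FreeGroup (X1 ⊕ X2) →* G) (iP : P →* G) (S : GTree G) (r b : S.V)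
  (X1' X2' P' G' : Type) [Group P'] [Group G'] (w' : FreeGroup X1') (a' : P')
  (iF' : FreeGroup (X1' ⊕ X2') →* G') (iP' : P' →* G') (S' : GTree G') (r' b' : S'.V),
  Su w a iF iP S r b → Su w' a' iF' iP' S' r' b' → ∀ φ : G ≃* G',
  (∀ x : G, x ∈ iP.range ↔ φ x ∈ iP'.range) →
  ∃ p ∈ iP'.range, ∀ y : FreeGroup X1, p * φ (iF (fl y)) * p⁻¹ ∈ iF'.range

/-- F6: the free factor is mapped into the free factor -/
def T_F6 : Prop := ∀ (X1 X2 P G : Type) [Group P] [Group G] (w : FreeGroup X1) (a : P)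
  (iF : FreeGroup (X1 ⊕ X2) →* G) (iP : P →* G) (S : GTree G) (r b : S.V)
  (X1' X2' P' G' : Type) [Group P'] [Group G'] (w' : FreeGroup X1') (a' : P')
  (iF' : FreeGroup (X1' ⊕ X2') →* G') (iP' : P' →* G') (S' : GTree G') (r' b' : S'.V),
  Su w a iF iP S r b → Su w' a' iF' iP' S' r' b' → ∀ φ : G ≃* G',
  (∀ x : G, x ∈ iP.range ↔ φ x ∈ iP'.range) →
  (∀ y : FreeGroup X1, φ (iF (fl y)) ∈ iF'.range) →
  ∀ y : FreeGroup X1, φ (iF (fl y)) ∈ (iF'.comp fl).range

/-- F7: both subgroups are preserved after a conjugation -/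
def T_F7 : Prop := ∀ (X1 X2 P G : Type) [Group P] [Group G] (w : FreeGroup X1) (a : P)
  (iF : FreeGroup (X1 ⊕ X2) →* G) (iP : P →* G) (S : GTree G) (r b : S.V)
  (X1' X2' P' G' : Type) [Group P'] [Group G'] (w' : FreeGroup X1') (a' : P')
  (iF' : FreeGroup (X1' ⊕ X2') →* G') (iP' : P' →* G') (S' : GTree G') (r' b' : S'.V),
  Su w a iF iP S r b → Su w' a' iF' iP' S' r' b' → Nonempty (G ≃* G') →
  ∃ φ : G ≃* G', (∀ x : G, x ∈ iP.range ↔ φ x ∈ iP'.range) ∧
  ∀ x : G, x ∈ (iF.comp fl).range ↔ φ x ∈ (iF'.comp fl).range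

/-- CO: the core of the main theorem -/
def T_CO : Prop := ∀ (X1 X2 P G : Type) [Group P] [Group G] (w : FreeGroup X1) (a : P)
  (iF : FreeGroup (X1 ⊕ X2) →* G) (iP : P →* G)
  (X1' X2' P' G' : Type) [Group P'] [Group G'] (w' : FreeGroup X1') (a' : P')
  (iF' : FreeGroup (X1' ⊕ X2') →* G') (iP' : P' →* G'),
  IsPO (zpowersHom (FreeGroup (X1 ⊕ X2)) (fl w)) (zpowersHom P a) iF iP →
  IsPO (zpowersHom (FreeGroup (X1' ⊕ X2')) (fl w')) (zpowersHom P' a') iF' iP' →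
  Root w → Wh w → Finite X1 → Nontrivial X1 → KG P → Inf a →
  Root w' → Wh w' → Finite X1' → Nontrivial X1' → KG P' → Inf a' → Nonempty (G ≃* G') →
  ∃ (α : FreeGroup X1 ≃* FreeGroup X1') (β : P ≃* P'), Nonempty (FreeGroup X2 ≃* FreeGroup X2') ∧
    ((α w = w' ∧ β a = a') ∨ (α w = w'⁻¹ ∧ β a = a'⁻¹))

/-- RI: rigidity of amalgamated products -/
def T_RI : Prop := ∀ (X X' P P' G G' : Type) [Finite X] [Finite X'] [Group P] [Group P']
  [Group G] [Group G'] (w : FreeGroup X) (w' : FreeGroup X') (a : P) (a' : P')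
  (iF : FreeGroup X →* G) (iP : P →* G) (iF' : FreeGroup X' →* G') (iP' : P' →* G'),
  IsPO (zpowersHom (FreeGroup X) w) (zpowersHom P a) iF iP →
  IsPO (zpowersHom (FreeGroup X') w') (zpowersHom P' a') iF' iP' →
  Root w → ¬ Prim w → KG P → Inf a → Root w' → ¬ Prim w' → KG P' → Inf a' →
  (Nonempty (G ≃* G') ↔ ∃ (α : FreeGroup X ≃* FreeGroup X') (β : P ≃* P'),
    (α w = w' ∧ β a = a') ∨ (α w = w'⁻¹ ∧ β a = a'⁻¹))

end ORh
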